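import Pool.Agent.L5helper7.SQ.Tup

/-! Project SQ (helper7): the density of a `k`-tuple in the semi-random sieve model. -/

set_option autoImplicit false

namespace Pool.Agent.L5helper7.SQ

open Finset Polynomial MeasureTheory ProbabilityTheory Filter Topology
open Pool.Agent.L5helper2.BH (pr mem_pr)
open Pool.Agent.L5helper2.RS (Vp Vp_eq Vp_pos Vp_le Vp_mertens bc)
open Pool.Agent.L5helper86.UL

variable {k : ℕ}

lemma no_div {h : Fin k → ℤ} {B : ℕ} (hinj : Function.Injective h) (hB : ∀ i, |h i| ≤ (B : ℤ)) {p : ℕ} (hp : 2 * B < p) :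
    ∀ i j, i ≠ j → ¬ (p : ℤ) ∣ h i - h j := by
  intro i j hij hd
  have h1 : h i - h j ≠ 0 := fun h2 => hij (hinj (by omega))
  have h2 := Int.le_of_dvd (abs_pos.2 h1) ((dvd_abs _ _).2 hd)
  have h3 : |h i - h j| ≤ |h i| + |h j| := abs_sub _ _
  have h4 := hB i
  have h5 := hB j
  omega

/-- the density of the tuple `m + h i` -/
theorem tup_dens {Ω : Type} [MeasurableSpace Ω] {P : Measure Ω} {X : ℕ → Ω → ℕ} (hX : Sys P X) {θ : ℝ} (hθ : 0 < θ)
    {w : ℕ → ℝ} (hw1 : Tendsto w atTop atTop) (hw2 : ∀ᶠ v : ℕ in atTop, w v ≤ (v : ℝ) ^ θ)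
    {h : Fin k → ℤ} (hinj : Function.Injective h) {S : ℝ} (hS0 : 0 < S)
    (hS : Tendsto (fun W : ℕ => ∏ p ∈ pr W, FF (nuh h p) k p) atTop (𝓝 S)) :
    ∀ᵐ ω ∂P, ∀ ε : ℝ, 0 < ε → ∃ v0 : ℕ, ∀ m : ℤ, (∀ i, (v0 : ℤ) ≤ m + h i) →
      Real.exp (-ε) * (S * ∏ i, VV θ (m + h i).natAbs) ≤
        densS w (fun v : ℕ => (v : ℝ) ^ θ) (tup h) (fun _ => 0) (fun p => X p ω) m ∧
      densS w (fun v : ℕ => (v : ℝ) ^ θ) (tup h) (fun _ => 0) (fun p => X p ω) m ≤
        Real.exp ε * (S * ∏ i, VV θ (m + h i).natAbs) := by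
  classical
  obtain ⟨B, hB⟩ : ∃ B : ℕ, B = ∑ i, (h i).natAbs := ⟨_, rfl⟩
  have hhB : ∀ i, |h i| ≤ (B : ℤ) := by
    intro i
    have h1 : (h i).natAbs ≤ B := by
      rw [hB]
      exact single_le_sum (f := fun i => (h i).natAbs) (fun _ _ => Nat.zero_le _) (mem_univ i)
    rw [Int.abs_eq_natAbs]
    exact_mod_cast h1
  filter_upwards [co_tail hX h] with ω hω ε hε
  obtain ⟨W0, hW0⟩ := hω (ε / 2 / (2 ^ k * (k + 1))) (by positivity)
  have hlim1 : ∀ᶠ W : ℕ in atTop, ∏ p ∈ pr W, FF (nuh h p) k p ≤ Real.exp (ε / 2) * S := by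
    refine hS.eventually_le_const ?_
    have : 1 < Real.exp (ε / 2) := Real.one_lt_exp_iff.2 (by positivity)
    nlinarith
  have hlim2 : ∀ᶠ W : ℕ in atTop, Real.exp (-(ε / 2)) * S ≤ ∏ p ∈ pr W, FF (nuh h p) k p := by
    refine hS.eventually_const_le ?_
    have : Real.exp (-(ε / 2)) < 1 := Real.exp_lt_one_iff.2 (by linarith)
    nlinarith
  obtain ⟨W, hWl, hWu, hWa, hWb, hWc, hWd⟩ := (hlim2.and (hlim1.and ((eventually_ge_atTop W0).and
    ((eventually_ge_atTop (2 * B + 2)).and ((eventually_ge_atTop (2 * k)).and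
    (eventually_ge_atTop ⌈2 * (2 * (k : ℝ) ^ 2) / ε⌉₊)))))).exists
  obtain ⟨v1, hv1⟩ := eventually_atTop.1 hw2
  obtain ⟨v2, hv2⟩ := eventually_atTop.1 (hw1.eventually_ge_atTop (W : ℝ))
  refine ⟨max v1 v2, fun m hm => ?_⟩
  obtain ⟨g, hg⟩ : ∃ g, g = tup h := ⟨_, rfl⟩
  obtain ⟨z, hz⟩ : ∃ z : ℕ → ℝ, z = fun v : ℕ => (v : ℝ) ^ θ := ⟨_, rfl⟩
  have hev : ∀ i, ((g i).eval m) = m + h i := fun i => by rw [hg, tup_eval]
  have hbig : ∀ i, max v1 v2 ≤ ((g i).eval m).natAbs := by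
    intro i
    rw [hev]
    have := hm i
    omega
  have hwz : ∀ i, w ((g i).eval m).natAbs ≤ z ((g i).eval m).natAbs := by
    intro i
    rw [hz]
    exact hv1 _ ((le_max_left _ _).trans (hbig i))
  have hWw : ∀ i, (W : ℝ) ≤ w ((g i).eval m).natAbs := fun i => hv2 _ ((le_max_right _ _).trans (hbig i))
  obtain ⟨M, hM⟩ : ∃ M : ℕ, M = W + ∑ i, ⌈z ((g i).eval m).natAbs⌉₊ := ⟨_, rfl⟩
  have hWM : W ≤ M := by omega
  have hzM' : ∀ i, z ((g i).eval m).natAbs ≤ M := by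
    intro i
    refine (Nat.le_ceil _).trans ?_
    have h1 : ⌈z ((g i).eval m).natAbs⌉₊ ≤ M := by
      rw [hM]
      refine le_trans ?_ (Nat.le_add_left _ _)
      exact single_le_sum (f := fun i => ⌈z ((g i).eval m).natAbs⌉₊) (fun _ _ => Nat.zero_le _) (mem_univ i)
    exact_mod_cast h1
  obtain ⟨lb, hlb⟩ : ∃ lb, lb = fun p => (PT w z g).lab p m := ⟨_, rfl⟩
  have hlb1 : ∀ p, (lb p).1 = univ.filter (fun i => (p : ℝ) ≤ z ((g i).eval m).natAbs) := fun p => by rw [hlb]; rfl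
  have hlb2 : ∀ p, (lb p).2 = univ.filter (fun i => (p : ℝ) ≤ w ((g i).eval m).natAbs) := fun p => by rw [hlb]; rfl
  have hsub : ∀ p, (lb p).2 ⊆ (lb p).1 := by
    intro p i hi
    rw [hlb2, mem_filter] at hi
    rw [hlb1, mem_filter]
    exact ⟨hi.1, hi.2.trans (hwz i)⟩
  have hdens : densS w z g (fun _ => 0) (fun p => X p ω) m =
      (∏ p ∈ pr M, FF (US g (fun _ => 0) (fun p => X p ω) (lb p) p) (#(lb p).1) p) * ∏ i, VV θ (m + h i).natAbs := by
    rw [densS_eq hzM' fun i => (hwz i).trans (hzM' i)]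
    have h9 : ∏ i, VV θ (m + h i).natAbs = ∏ p ∈ pr M, (1 - 1 / (p : ℝ)) ^ #(lb p).1 := by
      have h10 := prod_al (k := k) (M := M) (ℓ := lev z g m) (fun i => by
        unfold lev
        exact Nat.floor_le_of_le (hzM' i))
      have h11 : ∀ i, Vp (lev z g m i) = VV θ (m + h i).natAbs := by
        intro i
        unfold lev VV
        rw [hev, hz]
      rw [← prod_congr rfl fun i _ => h11 i, ← h10]
      refine prod_congr rfl fun p hp => ?_
      congr 2
      rw [hlb1]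
      unfold al lev
      refine filter_congr fun i _ => ?_
      rw [Nat.le_floor_iff' (mem_pr.1 hp).2.ne_zero]
    rw [h9, ← prod_mul_distrib]
    refine prod_congr rfl fun p hp => ?_
    have hp2 : (2 : ℝ) ≤ p := by exact_mod_cast (mem_pr.1 hp).2.two_le
    have h2 : 1 / (p : ℝ) ≤ 1 / 2 := one_div_le_one_div_of_le (by norm_num) hp2
    have h3 : (1 - 1 / (p : ℝ)) ^ #(lb p).1 ≠ 0 := pow_ne_zero _ (by linarith)
    unfold FF
    rw [div_mul_cancel₀ _ h3, hlb]
  have hsmall : ∏ p ∈ pr W, FF (US g (fun _ => 0) (fun p => X p ω) (lb p) p) (#(lb p).1) p = ∏ p ∈ pr W, FF (nuh h p) k p := by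
    refine prod_congr rfl fun p hp => ?_
    have hu : (lb p).2 = univ := by
      rw [hlb2]
      refine filter_true_of_mem fun i _ => ?_
      refine le_trans ?_ (hWw i)
      exact_mod_cast (mem_pr.1 hp).1
    have hu1 : (lb p).1 = univ := by
      rw [← univ_subset_iff, ← hu]
      exact hsub p
    rw [hg, US_univ h _ hu hu1, hu1, card_univ, Fintype.card_fin]
  obtain ⟨F, hF⟩ : ∃ F : ℕ → ℝ, F = fun p => FF (US g (fun _ => 0) (fun p => X p ω) (lb p) p) (#(lb p).1) p := ⟨_, rfl⟩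
  have hlarge : ∀ p ∈ (Ioc W M).filter Nat.Prime,
      Real.exp (-(2 * (k : ℝ) ^ 2 / (p : ℝ) ^ 2)) ≤ F p ∧ F p ≤ Real.exp (2 ^ k * (k * cw h p (X p ω))) := by
    intro p hp
    rw [mem_filter, mem_Ioc] at hp
    have hp0 : (0 : ℝ) < p := by exact_mod_cast hp.2.pos
    have hle : US g (fun _ => 0) (fun p => X p ω) (lb p) p ≤ #(lb p).1 := by
      rw [hg]
      exact US_le h _ (hsub p) hp.2.pos
    have hck : #(lb p).1 ≤ k := (card_le_univ _).trans (by rw [Fintype.card_fin])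
    have h1 := FFk (U := US g (fun _ => 0) (fun p => X p ω) (lb p) p) (c := #(lb p).1) (p := p) (K := k) (by omega) (by omega)
      hck hle (ξ := k * (p * cw h p (X p ω))) (by
        by_cases hco : Co h (X p ω) p
        · unfold cw
          rw [if_pos ⟨hp.2, hco⟩, mul_one_div_cancel hp0.ne', mul_one]
          have h2 : (#(lb p).1 : ℝ) ≤ k := by exact_mod_cast hck
          have h3 : (0 : ℝ) ≤ US g (fun _ => 0) (fun p => X p ω) (lb p) p := by positivity
          linarith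
        · have h2 : US g (fun _ => 0) (fun p => X p ω) (lb p) p = #(lb p).1 := by
            rw [hg]
            exact US_full h _ (hsub p) hp.2.pos (no_div hinj hhB (by omega)) hco
          rw [h2, sub_self]
          have := cw_nonneg h p (X p ω)
          positivity)
    rw [hF]
    refine ⟨h1.1, h1.2.trans (Real.exp_le_exp.2 (le_of_eq ?_))⟩
    field_simp
  have hlow : Real.exp (-(ε / 2)) ≤ ∏ p ∈ (Ioc W M).filter Nat.Prime, F p := by
    calc Real.exp (-(ε / 2)) ≤ Real.exp (-((2 * (k : ℝ) ^ 2) * ∑ p ∈ (Ioc W M).filter Nat.Prime, 1 / (p : ℝ) ^ 2)) := by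
          refine Real.exp_le_exp.2 ?_
          have h9 := sum_inv_sq (w := W) (by omega) ((Ioc W M).filter Nat.Prime) fun p hp => (mem_Ioc.1 (mem_filter.1 hp).1).1
          have hW0 : (0 : ℝ) < W := by exact_mod_cast (by omega : 0 < W)
          have h10 : (2 * (k : ℝ) ^ 2) * (1 / (W : ℝ)) ≤ ε / 2 := by
            have h11 : 2 * (2 * (k : ℝ) ^ 2) / ε ≤ W := (Nat.le_ceil _).trans (by exact_mod_cast hWd)
            rw [div_le_iff₀ hε] at h11
            rw [mul_one_div, div_le_div_iff₀ hW0 (by norm_num)]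
            linarith
          have h12 := mul_le_mul_of_nonneg_left h9 (show (0 : ℝ) ≤ 2 * (k : ℝ) ^ 2 by positivity)
          linarith
      _ = ∏ p ∈ (Ioc W M).filter Nat.Prime, Real.exp (-(2 * (k : ℝ) ^ 2 / (p : ℝ) ^ 2)) := by
          rw [← Real.exp_sum, sum_neg_distrib, mul_sum]
          congr 2
          exact sum_congr rfl fun p _ => by ring
      _ ≤ ∏ p ∈ (Ioc W M).filter Nat.Prime, F p :=
          prod_le_prod (fun p _ => (Real.exp_pos _).le) fun p hp => (hlarge p hp).1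
  have hup : ∏ p ∈ (Ioc W M).filter Nat.Prime, F p ≤ Real.exp (ε / 2) := by
    calc ∏ p ∈ (Ioc W M).filter Nat.Prime, F p ≤ ∏ p ∈ (Ioc W M).filter Nat.Prime,
          Real.exp (2 ^ k * (k * cw h p (X p ω))) :=
          prod_le_prod (fun p hp => (Real.exp_pos _).le.trans (hlarge p hp).1) fun p hp => (hlarge p hp).2
      _ = Real.exp (2 ^ k * (k * ∑ p ∈ (Ioc W M).filter Nat.Prime, cw h p (X p ω))) := by
          rw [← Real.exp_sum]
          congr 1
          rw [mul_sum, mul_sum]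
      _ ≤ Real.exp (ε / 2) := by
          refine Real.exp_le_exp.2 ?_
          have h9 := hW0 ((Ioc W M).filter Nat.Prime) fun p hp => by
            have := (mem_Ioc.1 (mem_filter.1 hp).1).1
            omega
          have h10 : (0 : ℝ) ≤ ε / 2 / (2 ^ k * (k + 1)) := by positivity
          calc 2 ^ k * (k * ∑ p ∈ (Ioc W M).filter Nat.Prime, cw h p (X p ω)) ≤
                2 ^ k * (k * (ε / 2 / (2 ^ k * (k + 1)))) :=
                mul_le_mul_of_nonneg_left (mul_le_mul_of_nonneg_left h9 (by positivity)) (by positivity)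
            _ ≤ 2 ^ k * (((k : ℝ) + 1) * (ε / 2 / (2 ^ k * (k + 1)))) :=
                mul_le_mul_of_nonneg_left (mul_le_mul_of_nonneg_right (by linarith) h10) (by positivity)
            _ = ε / 2 := by field_simp
  rw [← hg, ← hz, hdens, pr_split hWM, hsmall]
  have hV0 : 0 < ∏ i, VV θ (m + h i).natAbs := prod_pos fun i _ => VV_pos _ _
  rw [hF] at hlow hup
  simp only at hlow hup
  obtain ⟨G, hG⟩ : ∃ G, G = ∏ p ∈ (Ioc W M).filter Nat.Prime, FF (US g (fun _ => 0) (fun p => X p ω) (lb p) p) (#(lb p).1) p :=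
    ⟨_, rfl⟩
  rw [← hG] at hlow hup ⊢
  obtain ⟨T, hT⟩ : ∃ T, T = ∏ p ∈ pr W, FF (nuh h p) k p := ⟨_, rfl⟩
  rw [← hT] at hWl hWu ⊢
  obtain ⟨V, hV⟩ : ∃ V, V = ∏ i, VV θ (m + h i).natAbs := ⟨_, rfl⟩
  rw [← hV] at hV0 ⊢
  have hexp1 : Real.exp (-ε) = Real.exp (-(ε / 2)) * Real.exp (-(ε / 2)) := by
    rw [← Real.exp_add]
    congr 1
    ring
  have hexp2 : Real.exp ε = Real.exp (ε / 2) * Real.exp (ε / 2) := by
    rw [← Real.exp_add]
    congr 1
    ring
  constructor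
  · have h9 : Real.exp (-(ε / 2)) * S * Real.exp (-(ε / 2)) ≤ T * G :=
      mul_le_mul hWl hlow (Real.exp_pos _).le ((mul_pos (Real.exp_pos _) hS0).le.trans hWl)
    calc Real.exp (-ε) * (S * V) = (Real.exp (-(ε / 2)) * S * Real.exp (-(ε / 2))) * V := by
          rw [hexp1]
          ring
      _ ≤ (T * G) * V := mul_le_mul_of_nonneg_right h9 hV0.le
  · have h9 : T * G ≤ Real.exp (ε / 2) * S * Real.exp (ε / 2) :=
      mul_le_mul hWu hup ((Real.exp_pos _).le.trans hlow) (by positivity)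
    calc (T * G) * V ≤ (Real.exp (ε / 2) * S * Real.exp (ε / 2)) * V := mul_le_mul_of_nonneg_right h9 hV0.le
      _ = Real.exp ε * (S * V) := by
          rw [hexp2]
          ring

end Pool.Agent.L5helper7.SQ
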