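import Pool.Agent.L5helper7.SQ.Dens

/-! Project SQ (helper7): the number of the `k`-tuples in short intervals, semi-random sieve model. -/

set_option autoImplicit false

namespace Pool.Agent.L5helper7.SQ

open Finset Polynomial MeasureTheory ProbabilityTheory Filter Topology
open Pool.Agent.L5helper2.BH (pr mem_pr)
open Pool.Agent.L5helper2.RS (Vp Vp_eq Vp_pos Vp_le Vp_mertens bc)
open Pool.Agent.L5helper86.UL

variable {k : ℕ}

/-- uniform asymptotics of `V` around the square root of `n` -/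
lemma unif_VL {θ : ℝ} (hθ : 0 < θ) {η : ℝ} (hη : 0 < η) : ∀ᶠ n : ℕ in atTop, ∀ v : ℕ,
    n ≤ v ^ 2 → v ^ 2 ≤ 36 * n → |Real.log n / 2 * VV θ v - Real.exp (-Real.eulerMascheroniConstant) / θ| ≤ η := by
  obtain ⟨c, hc⟩ : ∃ c, c = Real.exp (-Real.eulerMascheroniConstant) / θ := ⟨_, rfl⟩
  have hc0 : 0 < c := by rw [hc]; exact div_pos (Real.exp_pos _) hθ
  have hlim := VV_lim hθ
  rw [← hc] at hlim ⊢
  have h1 : ∀ᶠ m : ℕ in atTop, |VV θ m * Real.log m - c| ≤ min (η / 2) 1 := by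
    have h2 : Tendsto (fun m : ℕ => |VV θ m * Real.log m - c|) atTop (𝓝 0) := by
      simpa using (hlim.sub_const c).abs
    exact h2.eventually_le_const (by positivity)
  obtain ⟨m0, hm0⟩ := eventually_atTop.1 h1
  filter_upwards [eventually_ge_atTop ((m0 + 1) ^ 2), Pool.Agent.L5helper86.UL.logT.eventually_ge_atTop (2 * ((c + 1) * 5 * 2 / η) + 2)] with
    n hn hlog v hv1 hv2
  have hvm : m0 ≤ v := by
    by_contra hcon
    have h3 : v ≤ m0 := by omega
    have h4 : v ^ 2 ≤ m0 ^ 2 := Nat.pow_le_pow_left h3 2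
    nlinarith
  have h4 := hm0 v hvm
  have h5 : |VV θ v * Real.log v - c| ≤ η / 2 := h4.trans (min_le_left _ _)
  have h6 : |VV θ v * Real.log v - c| ≤ 1 := h4.trans (min_le_right _ _)
  have hn1 : 1 ≤ n := le_trans (Nat.one_le_pow _ _ (by omega)) hn
  have hn0 : (0 : ℝ) < n := by exact_mod_cast hn1
  have hv0 : 0 < v := by
    rcases Nat.eq_zero_or_pos v with h | h
    · subst h
      simp at hv1
      omega
    · exact h
  have hvr : (0 : ℝ) < v := by exact_mod_cast hv0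
  obtain ⟨L, hL⟩ : ∃ L, L = Real.log n / 2 := ⟨_, rfl⟩
  obtain ⟨l, hl⟩ : ∃ l, l = Real.log v := ⟨_, rfl⟩
  have hLl : L ≤ l := by
    have h7 : (n : ℝ) ≤ (v : ℝ) ^ 2 := by exact_mod_cast hv1
    have h8 := Real.log_le_log hn0 h7
    rw [Real.log_pow, Nat.cast_ofNat] at h8
    rw [hL, hl]
    linarith
  have hlL : l ≤ L + 5 := by
    have h7 : (v : ℝ) ^ 2 ≤ 36 * n := by exact_mod_cast hv2
    have h8 := Real.log_le_log (by positivity) h7
    rw [Real.log_pow, Nat.cast_ofNat, Real.log_mul (by norm_num) hn0.ne'] at h8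
    have h9 : Real.log 36 ≤ 10 := by
      have e : (36 : ℝ) = 6 ^ 2 := by norm_num
      rw [e, Real.log_pow]
      have := Real.log_le_sub_one_of_pos (show (0 : ℝ) < 6 by norm_num)
      push_cast
      linarith
    rw [hL, hl]
    linarith
  rw [← hl] at h5 h6
  rw [← hL]
  have hLb : (c + 1) * 5 * 2 / η + 1 ≤ L := by rw [hL]; linarith
  have hL0 : 0 < L := lt_of_lt_of_le (by positivity) hLb
  have hl0 : 0 < l := lt_of_lt_of_le hL0 hLl
  have hV0 := VV_pos θ v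
  have h12 : VV θ v * l ≤ c + 1 := by
    rw [abs_le] at h6
    linarith [h6.2]
  have h13 : VV θ v * (l - L) ≤ η / 2 := by
    have h14 : VV θ v ≤ (c + 1) / L := by
      rw [le_div_iff₀ hL0]
      exact (mul_le_mul_of_nonneg_left hLl hV0.le).trans h12
    calc VV θ v * (l - L) ≤ (c + 1) / L * 5 :=
          mul_le_mul h14 (by linarith) (by linarith) (by positivity)
      _ ≤ η / 2 := by
          rw [div_mul_eq_mul_div, div_le_iff₀ hL0]
          have h16 : (c + 1) * 5 * 2 / η ≤ L := by linarith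
          rw [div_le_iff₀ hη] at h16
          linarith
  have h15 : 0 ≤ VV θ v * (l - L) := mul_nonneg hV0.le (by linarith)
  have e : L * VV θ v - c = (VV θ v * l - c) - VV θ v * (l - L) := by ring
  rw [e]
  rw [abs_le] at h5 ⊢
  constructor <;> linarith [h5.1, h5.2]

/-- choice of a small parameter -/
lemma choose_etak {c ε : ℝ} (k : ℕ) (hc : 0 < c) (hε : 0 < ε) : ∃ η : ℝ, 0 < η ∧ η < c ∧
    Real.exp η * (c + η) ^ k ≤ c ^ k + ε ∧ c ^ k - ε ≤ Real.exp (-η) * (c - η) ^ k := by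
  have h1 : Tendsto (fun η : ℝ => Real.exp η * (c + η) ^ k) (𝓝[>] 0) (𝓝 (c ^ k)) := by
    have h2 : Continuous (fun η : ℝ => Real.exp η * (c + η) ^ k) := by fun_prop
    have h3 := h2.tendsto 0
    simp only [Real.exp_zero, add_zero, one_mul] at h3
    exact h3.mono_left nhdsWithin_le_nhds
  have h2 : Tendsto (fun η : ℝ => Real.exp (-η) * (c - η) ^ k) (𝓝[>] 0) (𝓝 (c ^ k)) := by
    have h2 : Continuous (fun η : ℝ => Real.exp (-η) * (c - η) ^ k) := by fun_prop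
    have h3 := h2.tendsto 0
    simp only [neg_zero, Real.exp_zero, sub_zero, one_mul] at h3
    exact h3.mono_left nhdsWithin_le_nhds
  have h3 : ∀ᶠ η : ℝ in 𝓝[>] 0, 0 < η := eventually_mem_nhdsWithin
  have h4 : ∀ᶠ η : ℝ in 𝓝[>] 0, η < c := by
    have : ∀ᶠ η : ℝ in 𝓝 0, η < c := Iio_mem_nhds hc
    exact this.filter_mono nhdsWithin_le_nhds
  obtain ⟨η, h5, h6, h7, h8⟩ := (h3.and (h4.and ((h1.eventually_le_const (show c ^ k < c ^ k + ε by linarith)).and
    (h2.eventually_const_le (show c ^ k - ε < c ^ k by linarith))))).exists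
  exact ⟨η, h5, h6, h7, h8⟩

/-- powers of the logarithm are small -/
lemma log_pow_small (k : ℕ) {a b : ℝ} (ha : 0 < a) (hb : 0 < b) :
    ∀ᶠ n : ℕ in atTop, (Real.log n / 2) ^ k ≤ b * (n : ℝ) ^ a := by
  have h1 := (isLittleO_log_rpow_atTop (show 0 < a / (k + 1) by positivity)).bound
    (show (0 : ℝ) < 1 by norm_num)
  have h2 := tendsto_natCast_atTop_atTop.eventually h1
  have h3 : ∀ᶠ n : ℕ in atTop, 1 / b ≤ (n : ℝ) ^ (a / (k + 1)) :=
    ((tendsto_rpow_atTop (by positivity)).comp tendsto_natCast_atTop_atTop).eventually_ge_atTop _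
  filter_upwards [h2, h3, eventually_ge_atTop 2] with n h4 h5 hn
  have hn1 : (1 : ℝ) ≤ n := by exact_mod_cast (by omega : 1 ≤ n)
  have hn0 : (0 : ℝ) < n := by linarith
  rw [Real.norm_eq_abs, abs_of_nonneg (Real.log_nonneg hn1), Real.norm_eq_abs, abs_of_nonneg (by positivity), one_mul] at h4
  obtain ⟨x, hx⟩ : ∃ x, x = (n : ℝ) ^ (a / (k + 1)) := ⟨_, rfl⟩
  rw [← hx] at h4 h5
  have hx0 : 0 < x := by rw [hx]; positivity
  have e : (n : ℝ) ^ a = x ^ (k + 1) := by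
    rw [hx, ← Real.rpow_natCast, ← Real.rpow_mul hn0.le]
    congr 1
    push_cast
    field_simp
  rw [e, pow_succ]
  have h6 : (Real.log n / 2) ^ k ≤ x ^ k := by
    refine pow_le_pow_left₀ (by have := Real.log_nonneg hn1; positivity) ?_ k
    have := Real.log_nonneg hn1
    linarith
  have h7 : 1 ≤ b * x := by
    rw [div_le_iff₀ hb] at h5
    linarith
  calc (Real.log n / 2) ^ k ≤ x ^ k * 1 := by rw [mul_one]; exact h6
    _ ≤ x ^ k * (b * x) := mul_le_mul_of_nonneg_left h7 (by positivity)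
    _ = _ := by ring

open Classical in
/-- the number of the tuples -/
noncomputable def CT (w : ℕ → ℝ) (θ : ℝ) (a : ℕ → ℕ) (h : Fin k → ℤ) (u H : ℕ) : ℝ :=
  #((Ioc (u : ℤ) ((u : ℤ) + (H : ℤ))).filter fun m => ∀ i, SR w (fun v : ℕ => (v : ℝ) ^ θ) (fun _ => 0) a
    ((tup h i).eval m))

/-- the asymptotic formula in short intervals around the square root of `n` -/
theorem tup_short {Ω : Type} [MeasurableSpace Ω] {P : Measure Ω} {X : ℕ → Ω → ℕ} (hX : Sys P X) {θ : ℝ} (hθ : 0 < θ)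
    {w : ℕ → ℝ} (hwm : Monotone w) (hw1 : Tendsto w atTop atTop)
    (hw : ∀ ε : ℝ, 0 < ε → ∀ᶠ n : ℕ in atTop, w n ≤ Real.exp (ε * Real.log n / Real.log (Real.log n)))
    {h : Fin k → ℤ} (hinj : Function.Injective h) {S : ℝ} (hS0 : 0 < S)
    (hS : Tendsto (fun W : ℕ => ∏ p ∈ pr W, FF (nuh h p) k p) atTop (𝓝 S)) :
    ∀ᵐ ω ∂P, ∀ δ ε : ℝ, 0 < δ → 0 < ε → ∀ᶠ n : ℕ in atTop, ∀ u H : ℕ,
      29 * n ≤ u ^ 2 → (u + H) ^ 2 ≤ 30 * n → (n : ℝ) ^ δ ≤ H →
      |CT w θ (fun p => X p ω) h u H - (Real.exp (-Real.eulerMascheroniConstant) / θ) ^ k *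
        (S * H / (Real.log n / 2) ^ k)| ≤ ε * (S * H / (Real.log n / 2) ^ k) := by
  classical
  obtain ⟨c, hc⟩ : ∃ c, c = Real.exp (-Real.eulerMascheroniConstant) / θ := ⟨_, rfl⟩
  have hc0 : 0 < c := by rw [hc]; exact div_pos (Real.exp_pos _) hθ
  obtain ⟨Bh, hBh⟩ : ∃ Bh : ℕ, Bh = ∑ i, (h i).natAbs := ⟨_, rfl⟩
  have hhB : ∀ i, |h i| ≤ (Bh : ℤ) := by
    intro i
    have h1 : (h i).natAbs ≤ Bh := by
      rw [hBh]
      exact single_le_sum (f := fun i => (h i).natAbs) (fun _ _ => Nat.zero_le _) (mem_univ i)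
    rw [Int.abs_eq_natAbs]
    exact_mod_cast h1
  filter_upwards [semi_law hX hwm (z_mono hθ) (z_bound hθ) hw, tup_dens hX hθ hw1 (hw_pow hθ hw) hinj hS0 hS] with
    ω h1 h2 δ ε hδ hε
  obtain ⟨η, hη0, hηc, hη1, hη2⟩ := choose_etak k hc0 (show 0 < ε / 3 by positivity)
  obtain ⟨v0, hv0⟩ := h2 η hη0
  obtain ⟨B, hB⟩ : ∃ B : ℕ, B = ⌈1 / δ⌉₊ + 1 := ⟨_, rfl⟩
  obtain ⟨H0, hH0⟩ := eventually_atTop.1 (h1 k 1 (B + 1) 1 (1 / 4) (by norm_num))
  have hu := unif_VL hθ hη0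
  rw [← hc] at hu ⊢
  have hbig : ∀ᶠ n : ℕ in atTop, (max ((H0 : ℝ) + Bh + 6) (Real.exp (3 * (c ^ k + ε / 3) / ε + 1))) ≤ (n : ℝ) ^ δ :=
    ((tendsto_rpow_atTop hδ).comp tendsto_natCast_atTop_atTop).eventually_ge_atTop _
  filter_upwards [hu, hbig, log_pow_small k (show 0 < δ / 4 by positivity) (show 0 < ε / 3 * S by positivity),
    eventually_ge_atTop (100 * Bh ^ 2 + v0 ^ 2 + 3)] with n h3 h6 h7 hn u H hu1 hu2 hH
  have hn3 : (3 : ℝ) ≤ n := by exact_mod_cast (by omega : 3 ≤ n)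
  have hn0 : (0 : ℝ) < n := by linarith
  have hn1 : (1 : ℝ) ≤ n := by linarith
  have hlog0 : 0 < Real.log n := Real.log_pos (by linarith)
  obtain ⟨L, hL⟩ : ∃ L, L = Real.log n / 2 := ⟨_, rfl⟩
  have hL0 : 0 < L := by rw [hL]; positivity
  rw [← hL] at h3 h7 ⊢
  have hHr : (H0 : ℝ) + Bh + 6 ≤ H := (le_max_left _ _).trans (h6.trans hH)
  have hH02 : H0 + Bh + 6 ≤ H := by exact_mod_cast hHr
  have hH1 : (1 : ℝ) ≤ H := by exact_mod_cast (by omega : 1 ≤ H)
  have hHpos : (0 : ℝ) < H := by linarith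
  have hlogH : 3 * (c ^ k + ε / 3) / ε + 1 ≤ Real.log H := by
    rw [Real.le_log_iff_exp_le hHpos]
    exact (le_max_right _ _).trans (h6.trans hH)
  have hlogH0 : 0 < Real.log H := lt_of_lt_of_le (by positivity) hlogH
  have hnHr : (n : ℝ) ≤ (H : ℝ) ^ B := by
    have h8 : (n : ℝ) = ((n : ℝ) ^ δ) ^ (1 / δ) := by
      rw [← Real.rpow_mul hn0.le, mul_one_div_cancel hδ.ne', Real.rpow_one]
    rw [h8]
    calc ((n : ℝ) ^ δ) ^ (1 / δ) ≤ (H : ℝ) ^ (1 / δ) := Real.rpow_le_rpow (by positivity) hH (by positivity)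
      _ ≤ (H : ℝ) ^ (B : ℝ) := by
          refine Real.rpow_le_rpow_of_exponent_le hH1 ?_
          rw [hB]
          push_cast
          have := Nat.le_ceil (1 / δ)
          linarith
      _ = _ := Real.rpow_natCast _ _
  have hnH : (n : ℤ) ≤ (H : ℤ) ^ B := by exact_mod_cast hnHr
  have hH1z : (1 : ℤ) ≤ H := by exact_mod_cast (by omega : 1 ≤ H)
  have hun : (u : ℤ) ≤ (H : ℤ) ^ (B + 1) := by
    have h8 : (u : ℤ) ^ 2 ≤ 36 * n := by
      have h9 : u ^ 2 ≤ (u + H) ^ 2 := Nat.pow_le_pow_left (by omega) 2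
      have h10 : u ^ 2 ≤ 36 * n := by omega
      exact_mod_cast h10
    have h9 : (u : ℤ) ≤ 6 * n := by
      by_contra hcon
      push Not at hcon
      have hnz : (0 : ℤ) ≤ n := by positivity
      nlinarith
    have h10 : (6 : ℤ) ≤ H := by exact_mod_cast (by omega : 6 ≤ H)
    calc (u : ℤ) ≤ 6 * n := h9
      _ ≤ H * H ^ B := mul_le_mul h10 hnH (by positivity) (by positivity)
      _ = _ := by ring
  have h8 := hH0 H (by omega) (u : ℤ) (by
    rw [abs_of_nonneg (by positivity)]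
    exact hun) (tup h) (tup_deg h) (fun i j => tup_coeff h (B := (H : ℤ) ^ (B + 1)) (one_le_pow₀ hH1z) (fun i => by
      refine (hhB i).trans ?_
      have h9 : (Bh : ℤ) ≤ H := by exact_mod_cast (by omega : Bh ≤ H)
      exact h9.trans (le_self_pow₀ hH1z (by omega))) i j) (fun _ => 0)
  obtain ⟨T, hT⟩ : ∃ T, T = ∑ m ∈ Ioc (u : ℤ) ((u : ℤ) + (H : ℤ)), densS w (fun v : ℕ => (v : ℝ) ^ θ)
    (tup h) (fun _ => 0) (fun p => X p ω) m := ⟨_, rfl⟩
  rw [← hT] at h8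
  obtain ⟨hT0, h9⟩ := h8
  rw [pow_one] at h9
  obtain ⟨s, hs⟩ : ∃ s, s = S / L ^ k := ⟨_, rfl⟩
  have hs0 : 0 < s := by rw [hs]; positivity
  have e1 : S * H / L ^ k = s * H := by rw [hs]; ring
  rw [e1]
  -- the densities
  have hd : ∀ m ∈ Ioc (u : ℤ) ((u : ℤ) + (H : ℤ)), (c ^ k - ε / 3) * s ≤ densS w (fun v : ℕ => (v : ℝ) ^ θ)
      (tup h) (fun _ => 0) (fun p => X p ω) m ∧
      densS w (fun v : ℕ => (v : ℝ) ^ θ) (tup h) (fun _ => 0) (fun p => X p ω) m ≤ (c ^ k + ε / 3) * s := by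
    intro m hm
    rw [mem_Ioc] at hm
    have hu1z : 29 * (n : ℤ) ≤ (u : ℤ) ^ 2 := by exact_mod_cast hu1
    have hu2z : ((u : ℤ) + H) ^ 2 ≤ 30 * n := by exact_mod_cast hu2
    have hnz : 100 * (Bh : ℤ) ^ 2 + (v0 : ℤ) ^ 2 + 3 ≤ n := by exact_mod_cast hn
    have hm1 : 29 * (n : ℤ) ≤ m ^ 2 := by nlinarith
    have hm2 : m ^ 2 ≤ 30 * (n : ℤ) := by nlinarith
    have hm0 : 0 < m := by omega
    have hsq : ∀ i, (n : ℤ) ≤ (m + h i) ^ 2 ∧ (m + h i) ^ 2 ≤ 36 * n := by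
      intro i
      have h10 : (h i) ^ 2 ≤ (Bh : ℤ) ^ 2 := sq_le_sq' (by have := abs_le.1 (hhB i); omega) (by have := abs_le.1 (hhB i); omega)
      constructor
      · nlinarith [sq_nonneg (m + 100 * h i)]
      · nlinarith [sq_nonneg (m - 100 * h i)]
    have hpos : ∀ i, 0 < m + h i := by
      intro i
      have h10 := abs_le.1 (hhB i)
      have h11 : (Bh : ℤ) < m := by
        by_contra hcon
        push Not at hcon
        nlinarith
      omega
    have hnat : ∀ i, n ≤ (m + h i).natAbs ^ 2 ∧ (m + h i).natAbs ^ 2 ≤ 36 * n := by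
      intro i
      have h10 : (((m + h i).natAbs : ℕ) : ℤ) = m + h i := by
        have := hpos i
        omega
      obtain ⟨h11, h12⟩ := hsq i
      rw [← h10] at h11 h12
      exact ⟨by exact_mod_cast h11, by exact_mod_cast h12⟩
    have a1 : ∀ i, |L * VV θ (m + h i).natAbs - c| ≤ η := fun i => h3 _ (hnat i).1 (hnat i).2
    have a3 := hv0 m (fun i => by
      by_contra hcon
      push Not at hcon
      have := hpos i
      have := (hsq i).1
      nlinarith)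
    obtain ⟨V, hV⟩ : ∃ V, V = ∏ i, VV θ (m + h i).natAbs := ⟨_, rfl⟩
    rw [← hV] at a3
    have e2 : S * V = s * (L ^ k * V) := by
      rw [hs]
      field_simp
    have e3 : L ^ k * V = ∏ i, (L * VV θ (m + h i).natAbs) := by
      rw [hV, prod_mul_distrib, prod_const, card_univ, Fintype.card_fin]
    obtain ⟨Q, hQ⟩ : ∃ Q, Q = L ^ k * V := ⟨_, rfl⟩
    rw [e2, ← hQ] at a3
    rw [← hQ] at e3
    have hxy1 : Q ≤ (c + η) ^ k := by
      rw [e3]
      calc ∏ i, (L * VV θ (m + h i).natAbs) ≤ ∏ _i : Fin k, (c + η) := by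
            refine prod_le_prod (fun i _ => (mul_pos hL0 (VV_pos _ _)).le) fun i _ => ?_
            have := (abs_le.1 (a1 i)).2
            linarith
        _ = _ := by rw [prod_const, card_univ, Fintype.card_fin]
    have hxy2 : (c - η) ^ k ≤ Q := by
      rw [e3]
      calc (c - η) ^ k = ∏ _i : Fin k, (c - η) := by rw [prod_const, card_univ, Fintype.card_fin]
        _ ≤ _ := by
            refine prod_le_prod (fun i _ => by linarith) fun i _ => ?_
            have := (abs_le.1 (a1 i)).1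
            linarith
    constructor
    · refine le_trans ?_ a3.1
      calc (c ^ k - ε / 3) * s ≤ (Real.exp (-η) * (c - η) ^ k) * s := mul_le_mul_of_nonneg_right hη2 hs0.le
        _ ≤ (Real.exp (-η) * Q) * s :=
            mul_le_mul_of_nonneg_right (mul_le_mul_of_nonneg_left hxy2 (Real.exp_pos _).le) hs0.le
        _ = _ := by ring
    · refine a3.2.trans ?_
      calc Real.exp η * (s * Q) = (Real.exp η * Q) * s := by ring
        _ ≤ (Real.exp η * (c + η) ^ k) * s :=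
            mul_le_mul_of_nonneg_right (mul_le_mul_of_nonneg_left hxy1 (Real.exp_pos _).le) hs0.le
        _ ≤ (c ^ k + ε / 3) * s := mul_le_mul_of_nonneg_right hη1 hs0.le
  have hcard : (#(Ioc (u : ℤ) ((u : ℤ) + (H : ℤ))) : ℝ) = H := by
    rw [Int.card_Ioc]
    simp
  have hSlow : (c ^ k - ε / 3) * s * H ≤ T := by
    rw [hT]
    calc (c ^ k - ε / 3) * s * H = ∑ _m ∈ Ioc (u : ℤ) ((u : ℤ) + (H : ℤ)), (c ^ k - ε / 3) * s := by
          rw [sum_const, nsmul_eq_mul, hcard]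
          ring
      _ ≤ _ := sum_le_sum fun m hm => (hd m hm).1
  have hSup : T ≤ (c ^ k + ε / 3) * s * H := by
    rw [hT]
    calc _ ≤ ∑ _m ∈ Ioc (u : ℤ) ((u : ℤ) + (H : ℤ)), (c ^ k + ε / 3) * s := sum_le_sum fun m hm => (hd m hm).2
      _ = (c ^ k + ε / 3) * s * H := by
          rw [sum_const, nsmul_eq_mul, hcard]
          ring
  -- the errors
  have herr1 : T / Real.log H ≤ ε / 3 * (s * H) := by
    rw [div_le_iff₀ hlogH0]
    refine hSup.trans ?_
    have h10 : 3 * (c ^ k + ε / 3) / ε ≤ Real.log H := by linarith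
    rw [div_le_iff₀ hε] at h10
    have h11 : 0 ≤ s * H := by positivity
    have h12 := mul_le_mul_of_nonneg_right h10 h11
    calc (c ^ k + ε / 3) * s * H = (3 * (c ^ k + ε / 3) * (s * H)) / 3 := by ring
      _ ≤ (Real.log H * ε * (s * H)) / 3 := by linarith
      _ = _ := by ring
  have herr2 : (H : ℝ) ^ ((1 : ℝ) / 2 + 1 / 4) ≤ ε / 3 * (s * H) := by
    have h10 : (n : ℝ) ^ (δ / 4) ≤ (H : ℝ) ^ ((1 : ℝ) / 4) := by
      calc (n : ℝ) ^ (δ / 4) = ((n : ℝ) ^ δ) ^ ((1 : ℝ) / 4) := by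
            rw [← Real.rpow_mul hn0.le]
            congr 1
            ring
        _ ≤ _ := Real.rpow_le_rpow (by positivity) hH (by norm_num)
    have h11 : L ^ k ≤ ε / 3 * S * (H : ℝ) ^ ((1 : ℝ) / 4) :=
      h7.trans (mul_le_mul_of_nonneg_left h10 (by positivity))
    have h12 : (H : ℝ) ^ ((1 : ℝ) / 2 + 1 / 4) * (H : ℝ) ^ ((1 : ℝ) / 4) = H := by
      rw [← Real.rpow_add hHpos]
      norm_num
    have h13 : 0 < (H : ℝ) ^ ((1 : ℝ) / 2 + 1 / 4) := by positivity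
    have h14 : (H : ℝ) ^ ((1 : ℝ) / 2 + 1 / 4) * L ^ k ≤ ε / 3 * S * H := by
      calc (H : ℝ) ^ ((1 : ℝ) / 2 + 1 / 4) * L ^ k ≤
            (H : ℝ) ^ ((1 : ℝ) / 2 + 1 / 4) * (ε / 3 * S * (H : ℝ) ^ ((1 : ℝ) / 4)) := mul_le_mul_of_nonneg_left h11 h13.le
        _ = ε / 3 * S * ((H : ℝ) ^ ((1 : ℝ) / 2 + 1 / 4) * (H : ℝ) ^ ((1 : ℝ) / 4)) := by ring
        _ = _ := by rw [h12]
    calc (H : ℝ) ^ ((1 : ℝ) / 2 + 1 / 4) ≤ (ε / 3 * S * H) / L ^ k := by
          rw [le_div_iff₀ (by positivity)]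
          exact h14
      _ = ε / 3 * (s * H) := by
          rw [hs]
          ring
  have hRR : CT w θ (fun p => X p ω) h u H = (#((Ioc (u : ℤ) ((u : ℤ) + (H : ℤ))).filter fun m => ∀ i,
      SR w (fun v : ℕ => (v : ℝ) ^ θ) (fun _ => 0) (fun p => X p ω) ((tup h i).eval m)) : ℝ) := rfl
  rw [← hRR] at h9
  rw [abs_le] at h9 ⊢
  have g1 := h9.1
  have g2 := h9.2
  constructor
  · linarith
  · linarith

end Pool.Agent.L5helper7.SQ
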