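import Pool.Agent.L5helper7.SQ.Law

/-! Project SQ (helper7): the singular series of the quadruple `p - 2`, `p`, `p + 4`, `p + 10`. -/

set_option autoImplicit false

namespace Pool.Agent.L5helper7.SQ

open Finset Polynomial MeasureTheory ProbabilityTheory Filter Topology
open Pool.Agent.L5helper2.BH (pr mem_pr)
open Pool.Agent.L5helper86.UL

/-- the shifts -/
def hq : Fin 4 → ℤ := ![-2, 0, 4, 10]

lemma ex4 (Q : ℤ → Prop) : (∃ i : Fin 4, Q (hq i)) ↔ Q (-2) ∨ Q 0 ∨ Q 4 ∨ Q 10 := by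
  constructor
  · rintro ⟨i, hi⟩
    fin_cases i
    · exact Or.inl hi
    · exact Or.inr (Or.inl hi)
    · exact Or.inr (Or.inr (Or.inl hi))
    · exact Or.inr (Or.inr (Or.inr hi))
  · rintro (h | h | h | h)
    · exact ⟨0, h⟩
    · exact ⟨1, h⟩
    · exact ⟨2, h⟩
    · exact ⟨3, h⟩

lemma all4 (Q : ℤ → Prop) : (∀ i : Fin 4, Q (hq i)) ↔ Q (-2) ∧ Q 0 ∧ Q 4 ∧ Q 10 := by
  constructor
  · intro h
    exact ⟨h 0, h 1, h 2, h 3⟩
  · rintro ⟨h0, h1, h2, h3⟩ i
    fin_cases i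
    · exact h0
    · exact h1
    · exact h2
    · exact h3

lemma hq_inj : Function.Injective hq := by
  decide

lemma hq_dvd : ∀ i j : Fin 4, i ≠ j → hq i - hq j ∣ 60 := by
  decide

lemma dvd60 {p : ℕ} (hp : p.Prime) (h : p ∣ 60) : p ≤ 5 := by
  have h1 : p ∣ 4 * (3 * 5) := h
  rcases hp.dvd_mul.1 h1 with h2 | h2
  · exact (Nat.le_of_dvd (by norm_num) h2).trans (by norm_num)
  · rcases hp.dvd_mul.1 h2 with h3 | h3
    · exact (Nat.le_of_dvd (by norm_num) h3).trans (by norm_num)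
    · exact Nat.le_of_dvd (by norm_num) h3

lemma nuh_large {p : ℕ} (hp : p.Prime) (h7 : 7 ≤ p) : nuh hq p = 4 := by
  classical
  have h1 := US_univ (k := 4) hq (fun _ => 0) (α := (univ, univ)) rfl rfl (p := p)
  have h2 := US_tup (k := 4) hq (fun _ => 0) (α := (univ, univ)) (subset_refl _) hp.pos
  rw [← h1, h2, card_image_of_injective, card_univ, Fintype.card_fin]
  intro i j hij
  by_contra hne
  simp only [mem_univ, if_true] at hij
  rw [rc_eq hp.pos] at hij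
  have h3 := Int.modEq_iff_dvd.1 hij
  have e : (0 : ℤ) - hq j - (0 - hq i) = hq i - hq j := by ring
  rw [e] at h3
  have h4 : (p : ℤ) ∣ (60 : ℕ) := h3.trans (hq_dvd i j hne)
  have h5 := dvd60 hp (Int.natCast_dvd_natCast.1 h4)
  omega

lemma nuh2 : nuh hq 2 = 1 := by
  classical
  unfold nuh
  have : (range 2).filter (fun t : ℕ => ∃ i, (t : ℤ) + hq i ≡ 0 [ZMOD ((2 : ℕ) : ℤ)]) = {0} := by
    ext t
    rw [mem_filter, mem_range, mem_singleton, ex4 fun x => (t : ℤ) + x ≡ 0 [ZMOD ((2 : ℕ) : ℤ)]]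
    unfold Int.ModEq
    omega
  rw [this, card_singleton]

lemma nuh3 : nuh hq 3 = 2 := by
  classical
  unfold nuh
  have : (range 3).filter (fun t : ℕ => ∃ i, (t : ℤ) + hq i ≡ 0 [ZMOD ((3 : ℕ) : ℤ)]) = {0, 2} := by
    ext t
    rw [mem_filter, mem_range, mem_insert, mem_singleton, ex4 fun x => (t : ℤ) + x ≡ 0 [ZMOD ((3 : ℕ) : ℤ)]]
    unfold Int.ModEq
    omega
  rw [this]
  rfl

lemma nuh5 : nuh hq 5 = 3 := by
  classical
  unfold nuh
  have : (range 5).filter (fun t : ℕ => ∃ i, (t : ℤ) + hq i ≡ 0 [ZMOD ((5 : ℕ) : ℤ)]) = {0, 1, 2} := by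
    ext t
    rw [mem_filter, mem_range, mem_insert, mem_insert, mem_singleton,
      ex4 fun x => (t : ℤ) + x ≡ 0 [ZMOD ((5 : ℕ) : ℤ)]]
    unfold Int.ModEq
    omega
  rw [this]
  rfl

/-- the partial products over the primes `7 ≤ p ≤ z` -/
noncomputable def P7 (z : ℕ) : ℝ := ∏ p ∈ (Icc 7 z).filter Nat.Prime, (1 - 4 / (p : ℝ)) / (1 - 1 / (p : ℝ)) ^ 4

lemma f7_01 {p : ℕ} (hp : 7 ≤ p) : 0 < (1 - 4 / (p : ℝ)) / (1 - 1 / (p : ℝ)) ^ 4 ∧
    (1 - 4 / (p : ℝ)) / (1 - 1 / (p : ℝ)) ^ 4 ≤ 1 := by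
  have hp7 : (7 : ℝ) ≤ p := by exact_mod_cast hp
  have hp0 : (0 : ℝ) < p := by linarith
  have h1 : 4 / (p : ℝ) < 1 := by rw [div_lt_one hp0]; linarith
  have h2 : 1 / (p : ℝ) < 1 := by rw [div_lt_one hp0]; linarith
  have h3 : 0 < (1 - 1 / (p : ℝ)) ^ 4 := pow_pos (by linarith) 4
  refine ⟨div_pos (by linarith) h3, ?_⟩
  rw [div_le_one h3]
  have h4 := one_add_mul_le_pow (a := -(1 / (p : ℝ))) (by linarith) 4
  have e : (1 : ℝ) + ((4 : ℕ) : ℝ) * -(1 / (p : ℝ)) = 1 - 4 / p := by push_cast; ring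
  rw [e] at h4
  exact h4

lemma P7_anti : Antitone P7 := by
  intro a b hab
  unfold P7
  have hsub : (Icc 7 a).filter Nat.Prime ⊆ (Icc 7 b).filter Nat.Prime :=
    filter_subset_filter _ (Icc_subset_Icc le_rfl hab)
  rw [← prod_sdiff hsub]
  refine mul_le_of_le_one_left (prod_nonneg fun p hp => (f7_01 (mem_Icc.1 (mem_filter.1 hp).1).1).1.le) ?_
  refine prod_le_one (fun p hp => ?_) fun p hp => ?_
  · exact (f7_01 (mem_Icc.1 (mem_filter.1 (Finset.mem_sdiff.1 hp).1).1).1).1.le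
  · exact (f7_01 (mem_Icc.1 (mem_filter.1 (Finset.mem_sdiff.1 hp).1).1).1).2

lemma P7_low (z : ℕ) : (1 / 2) * Real.exp (-(32 / 7)) ≤ P7 z := by
  have h1 : P7 (z + 7) ≤ P7 z := P7_anti (by omega)
  refine le_trans ?_ h1
  have hset : (Icc 7 (z + 7)).filter Nat.Prime = insert 7 ((Ioc 7 (z + 7)).filter Nat.Prime) := by
    ext p
    rw [mem_insert, mem_filter, mem_filter, mem_Icc, mem_Ioc]
    constructor
    · rintro ⟨⟨h2, h3⟩, h4⟩
      by_cases h5 : p = 7
      · exact Or.inl h5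
      · exact Or.inr ⟨⟨by omega, h3⟩, h4⟩
    · rintro (rfl | ⟨⟨h2, h3⟩, h4⟩)
      · exact ⟨⟨le_rfl, by omega⟩, by norm_num⟩
      · exact ⟨⟨by omega, h3⟩, h4⟩
  unfold P7
  rw [hset, prod_insert (by
    rw [mem_filter, mem_Ioc]
    omega)]
  refine mul_le_mul (by norm_num) ?_ (Real.exp_pos _).le (f7_01 (p := 7) le_rfl).1.le
  calc Real.exp (-(32 / 7)) ≤ Real.exp (-(32 * ∑ p ∈ (Ioc 7 (z + 7)).filter Nat.Prime, 1 / (p : ℝ) ^ 2)) := by
        refine Real.exp_le_exp.2 ?_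
        have h9 := sum_inv_sq (w := 7) (by omega) ((Ioc 7 (z + 7)).filter Nat.Prime) fun p hp =>
          (mem_Ioc.1 (mem_filter.1 hp).1).1
        push_cast at h9
        linarith
    _ = ∏ p ∈ (Ioc 7 (z + 7)).filter Nat.Prime, Real.exp (-(32 / (p : ℝ) ^ 2)) := by
        rw [← Real.exp_sum, sum_neg_distrib, mul_sum]
        congr 2
        exact sum_congr rfl fun p _ => by ring
    _ ≤ _ := by
        refine prod_le_prod (fun p _ => (Real.exp_pos _).le) fun p hp => ?_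
        rw [mem_filter, mem_Ioc] at hp
        have h2 := (FFk (U := 4) (c := 4) (p := p) (K := 4) (by omega) (by omega) le_rfl le_rfl (ξ := 0) (by simp)).1
        unfold FF at h2
        push_cast at h2
        norm_num at h2 ⊢
        exact h2

lemma P7_bdd : BddBelow (Set.range P7) := ⟨_, by rintro _ ⟨z, rfl⟩; exact P7_low z⟩

/-- the infinite product over the primes `p ≥ 7` -/
noncomputable def C7 : ℝ := ⨅ z : ℕ, P7 z

lemma C7_pos : 0 < C7 := lt_of_lt_of_le (mul_pos (by norm_num) (Real.exp_pos _)) (le_ciInf P7_low)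

lemma P7_lim : Tendsto P7 atTop (𝓝 C7) := tendsto_atTop_ciInf P7_anti P7_bdd

lemma prod_quad {W : ℕ} (hW : 7 ≤ W) : ∏ p ∈ pr W, FF (nuh hq p) 4 p = 3375 / 256 * P7 W := by
  have hset : pr W = insert 2 (insert 3 (insert 5 ((Icc 7 W).filter Nat.Prime))) := by
    ext p
    rw [mem_pr, mem_insert, mem_insert, mem_insert, mem_filter, mem_Icc]
    constructor
    · rintro ⟨h2, h3⟩
      by_cases h7 : 7 ≤ p
      · exact Or.inr (Or.inr (Or.inr ⟨⟨h7, h2⟩, h3⟩))
      · have h4 : p < 7 := by omega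
        have h5 : p = 2 ∨ p = 3 ∨ p = 5 := by
          have h6 := h3.two_le
          interval_cases p
          · exact Or.inl rfl
          · exact Or.inr (Or.inl rfl)
          · exact absurd h3 (by norm_num)
          · exact Or.inr (Or.inr rfl)
          · exact absurd h3 (by norm_num)
        rcases h5 with h5 | h5 | h5
        · exact Or.inl h5
        · exact Or.inr (Or.inl h5)
        · exact Or.inr (Or.inr (Or.inl h5))
    · rintro (rfl | rfl | rfl | ⟨⟨_, h2⟩, h3⟩)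
      · exact ⟨by omega, by norm_num⟩
      · exact ⟨by omega, by norm_num⟩
      · exact ⟨by omega, by norm_num⟩
      · exact ⟨h2, h3⟩
  rw [hset, prod_insert (by simp), prod_insert (by simp), prod_insert (by simp), nuh2, nuh3, nuh5]
  have h1 : ∏ p ∈ (Icc 7 W).filter Nat.Prime, FF (nuh hq p) 4 p = P7 W := by
    unfold P7
    refine prod_congr rfl fun p hp => ?_
    rw [mem_filter, mem_Icc] at hp
    rw [nuh_large hp.2 hp.1.1]
    unfold FF
    push_cast
    rfl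
  rw [h1]
  unfold FF
  push_cast
  norm_num
  ring

lemma quad_lim : Tendsto (fun W : ℕ => ∏ p ∈ pr W, FF (nuh hq p) 4 p) atTop (𝓝 (3375 / 256 * C7)) := by
  refine (P7_lim.const_mul (3375 / 256)).congr' ?_
  filter_upwards [eventually_ge_atTop 7] with W hW
  exact (prod_quad hW).symm

end Pool.Agent.L5helper7.SQ
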