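import Pool.Agent.L5helper86.UL.Gold4

/-! Project SQ (helper7): `k`-tuples `m + h i` in the semi-random sieve model (library UL of helper86): local factors. -/

set_option autoImplicit false

namespace Pool.Agent.L5helper7.SQ

open Finset Polynomial MeasureTheory ProbabilityTheory Filter Topology
open Pool.Agent.L5helper2.BH (pr mem_pr)
open Pool.Agent.L5helper2.RS (Vp Vp_eq Vp_pos Vp_le Vp_mertens bc)
open Pool.Agent.L5helper86.UL

variable {k : ℕ}

/-- the translates -/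
noncomputable def tup (h : Fin k → ℤ) (i : Fin k) : ℤ[X] := X + C (h i)

lemma tup_eval (h : Fin k → ℤ) (i : Fin k) (m : ℤ) : (tup h i).eval m = m + h i := by
  unfold tup
  simp

lemma tup_deg (h : Fin k → ℤ) (i : Fin k) : (tup h i).natDegree ≤ 1 := by
  unfold tup
  exact (natDegree_X_add_C (h i)).le

lemma tup_coeff (h : Fin k → ℤ) {B : ℤ} (hB : 1 ≤ B) (hh : ∀ i, |h i| ≤ B) (i : Fin k) (j : ℕ) :
    |(tup h i).coeff j| ≤ B := by
  unfold tup
  rw [coeff_add, coeff_X, coeff_C]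
  by_cases h0 : j = 0
  · subst h0
    simpa using hh i
  · by_cases h1 : 1 = j
    · subst h1
      simpa using hB
    · rw [if_neg h1, if_neg h0]
      simp
      omega

open Classical in
/-- the number of the classes of `- h i` modulo `p` -/
noncomputable def nuh (h : Fin k → ℤ) (p : ℕ) : ℕ := #((range p).filter fun t : ℕ => ∃ i, (t : ℤ) + h i ≡ 0 [ZMOD p])

/-- a coincidence -/
def Co (h : Fin k → ℤ) (b p : ℕ) : Prop := ∃ i j, (b : ℤ) ≡ h i - h j [ZMOD p]

open Classical in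
lemma US_tup (h : Fin k → ℤ) (a : ℕ → ℕ) {α : Finset (Fin k) × Finset (Fin k)} (hα : α.2 ⊆ α.1) {p : ℕ} (hp : 0 < p) :
    US (tup h) (fun _ => 0) a α p = #(α.1.image fun i => rc p ((if i ∈ α.2 then 0 else (a p : ℤ)) - h i)) := by
  unfold US
  congr 1
  ext t
  rw [mem_filter, mem_image]
  have key : ∀ (x y : ℤ), (t : ℤ) + y ≡ x [ZMOD p] ↔ (t : ℤ) ≡ x - y [ZMOD p] := by
    intro x y
    constructor
    · intro h2
      have h3 := h2.sub_right y
      rwa [add_sub_cancel_right] at h3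
    · intro h2
      have h3 := h2.add_right y
      rwa [sub_add_cancel] at h3
  constructor
  · rintro ⟨ht, ⟨i, hi, h2⟩ | ⟨i, hi, h2⟩⟩
    · rw [Finset.mem_sdiff] at hi
      refine ⟨i, hi.1, ?_⟩
      rw [if_neg hi.2]
      rw [tup_eval, key] at h2
      exact ((rc_iff hp ht _).1 h2).symm
    · refine ⟨i, hα hi, ?_⟩
      rw [if_pos hi]
      rw [tup_eval, key] at h2
      exact ((rc_iff hp ht _).1 h2).symm
  · rintro ⟨i, hi, rfl⟩
    refine ⟨rc_mem hp _, ?_⟩
    by_cases h2 : i ∈ α.2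
    · refine Or.inr ⟨i, h2, ?_⟩
      rw [if_pos h2]
      rw [if_pos h2] at key
      rw [tup_eval, key]
      exact (rc_iff hp (rc_mem hp _) _).2 rfl
    · refine Or.inl ⟨i, Finset.mem_sdiff.2 ⟨hi, h2⟩, ?_⟩
      rw [if_neg h2]
      rw [if_neg h2] at key
      rw [tup_eval, key]
      exact (rc_iff hp (rc_mem hp _) _).2 rfl

lemma US_le (h : Fin k → ℤ) (a : ℕ → ℕ) {α : Finset (Fin k) × Finset (Fin k)} (hα : α.2 ⊆ α.1) {p : ℕ} (hp : 0 < p) :
    US (tup h) (fun _ => 0) a α p ≤ #α.1 := by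
  classical
  rw [US_tup h a hα hp]
  exact card_image_le

lemma US_full (h : Fin k → ℤ) (a : ℕ → ℕ) {α : Finset (Fin k) × Finset (Fin k)} (hα : α.2 ⊆ α.1) {p : ℕ} (hp : 0 < p)
    (hd : ∀ i j, i ≠ j → ¬ (p : ℤ) ∣ h i - h j) (hco : ¬ Co h (a p) p) :
    US (tup h) (fun _ => 0) a α p = #α.1 := by
  classical
  rw [US_tup h a hα hp]
  refine card_image_of_injOn ?_
  intro i hi j hj hij
  by_contra hne
  simp only at hij
  rw [rc_eq hp] at hij
  by_cases h1 : i ∈ α.2 <;> by_cases h2 : j ∈ α.2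
  · rw [if_pos h1, if_pos h2] at hij
    refine hd i j hne ?_
    have h3 := Int.modEq_iff_dvd.1 hij
    have e : (0 : ℤ) - h j - (0 - h i) = h i - h j := by ring
    rwa [e] at h3
  · rw [if_pos h1, if_neg h2] at hij
    refine hco ⟨j, i, ?_⟩
    have h3 := hij.symm.add_right (h j)
    have e1 : (a p : ℤ) - h j + h j = a p := by ring
    have e2 : (0 : ℤ) - h i + h j = h j - h i := by ring
    rwa [e1, e2] at h3
  · rw [if_neg h1, if_pos h2] at hij
    refine hco ⟨i, j, ?_⟩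
    have h3 := hij.add_right (h i)
    have e1 : (a p : ℤ) - h i + h i = a p := by ring
    have e2 : (0 : ℤ) - h j + h i = h i - h j := by ring
    rwa [e1, e2] at h3
  · rw [if_neg h1, if_neg h2] at hij
    refine hd i j hne ?_
    have h3 := Int.modEq_iff_dvd.1 hij
    have e : (a p : ℤ) - h j - (a p - h i) = h i - h j := by ring
    rwa [e] at h3

lemma US_univ (h : Fin k → ℤ) (a : ℕ → ℕ) {α : Finset (Fin k) × Finset (Fin k)} (hα : α.2 = univ) (hα1 : α.1 = univ) {p : ℕ} :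
    US (tup h) (fun _ => 0) a α p = nuh h p := by
  classical
  unfold US nuh
  refine congrArg card (filter_congr fun t _ => ?_)
  rw [hα, hα1]
  simp only [tup_eval, Finset.mem_sdiff, mem_univ, not_true_eq_false, and_false, false_and, exists_false, false_or, true_and]

/-- bounds of the local factor -/
lemma FFk {U c p K : ℕ} (hp : 2 * K ≤ p) (hp2 : 2 ≤ p) (hc : c ≤ K) (hU : U ≤ c) {ξ : ℝ} (hξ : (c : ℝ) - U ≤ ξ) :
    Real.exp (-(2 * K ^ 2 / (p : ℝ) ^ 2)) ≤ FF U c p ∧ FF U c p ≤ Real.exp (2 ^ K * ξ / p) := by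
  have hp2r : (2 : ℝ) ≤ p := by exact_mod_cast hp2
  have hp0 : (0 : ℝ) < p := by linarith
  have hpk : 2 * (K : ℝ) ≤ p := by exact_mod_cast hp
  have hcK : (c : ℝ) ≤ K := by exact_mod_cast hc
  have hUc : (U : ℝ) ≤ c := by exact_mod_cast hU
  have hξ0 : 0 ≤ ξ := by linarith
  have hx : 1 / (p : ℝ) ≤ 1 / 2 := one_div_le_one_div_of_le (by norm_num) hp2r
  have hx0 : 0 < 1 / (p : ℝ) := by positivity
  have hx1 : 0 < 1 - 1 / (p : ℝ) := by linarith
  have hq0 : 0 < (1 - 1 / (p : ℝ)) ^ c := pow_pos hx1 _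
  have hcp : (c : ℝ) / p ≤ 1 / 2 := by
    rw [div_le_div_iff₀ hp0 (by norm_num)]
    linarith
  have hcp0 : 0 ≤ (c : ℝ) / p := by positivity
  constructor
  · have h1 := log_bound hcp0 hcp
    rw [abs_le] at h1
    have h2 : 0 < 1 - (c : ℝ) / p := by linarith
    have h3 : Real.exp (-((c : ℝ) / p) - 2 * ((c : ℝ) / p) ^ 2) ≤ 1 - (c : ℝ) / p := by
      rw [← Real.le_log_iff_exp_le h2]
      linarith [h1.1]
    have h4 : (1 - 1 / (p : ℝ)) ^ c ≤ Real.exp (-((c : ℝ) / p)) := by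
      have h5 : 1 - 1 / (p : ℝ) ≤ Real.exp (-(1 / (p : ℝ))) := by
        have := Real.add_one_le_exp (-(1 / (p : ℝ)))
        linarith
      calc (1 - 1 / (p : ℝ)) ^ c ≤ (Real.exp (-(1 / (p : ℝ)))) ^ c := pow_le_pow_left₀ hx1.le h5 c
        _ = Real.exp (-((c : ℝ) / p)) := by
            rw [← Real.exp_nat_mul]
            congr 1
            ring
    have h5 : Real.exp (-(2 * K ^ 2 / (p : ℝ) ^ 2)) * (1 - 1 / (p : ℝ)) ^ c ≤ 1 - (c : ℝ) / p := by
      refine le_trans ?_ h3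
      calc Real.exp (-(2 * K ^ 2 / (p : ℝ) ^ 2)) * (1 - 1 / (p : ℝ)) ^ c ≤
            Real.exp (-(2 * K ^ 2 / (p : ℝ) ^ 2)) * Real.exp (-((c : ℝ) / p)) :=
            mul_le_mul_of_nonneg_left h4 (Real.exp_pos _).le
        _ = Real.exp (-(2 * K ^ 2 / (p : ℝ) ^ 2) + -((c : ℝ) / p)) := by rw [← Real.exp_add]
        _ ≤ _ := by
            refine Real.exp_le_exp.2 ?_
            have h6 : 2 * ((c : ℝ) / p) ^ 2 ≤ 2 * K ^ 2 / (p : ℝ) ^ 2 := by
              rw [div_pow, mul_div_assoc']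
              refine div_le_div_of_nonneg_right ?_ (by positivity)
              have : (c : ℝ) ^ 2 ≤ K ^ 2 := pow_le_pow_left₀ (by positivity) hcK 2
              linarith
            linarith
    unfold FF
    rw [le_div_iff₀ hq0]
    refine h5.trans ?_
    have : (U : ℝ) / p ≤ c / p := div_le_div_of_nonneg_right hUc hp0.le
    linarith
  · have h1 : 1 - (c : ℝ) / p ≤ (1 - 1 / (p : ℝ)) ^ c := by
      have h2 := one_add_mul_le_pow (a := -(1 / (p : ℝ))) (by linarith) c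
      have e : (1 : ℝ) + (c : ℝ) * -(1 / (p : ℝ)) = 1 - c / p := by ring
      rw [e] at h2
      exact h2
    have h2 : (1 / 2 : ℝ) ^ K ≤ (1 - 1 / (p : ℝ)) ^ c := by
      calc (1 / 2 : ℝ) ^ K ≤ (1 / 2 : ℝ) ^ c := pow_le_pow_of_le_one (by norm_num) (by norm_num) hc
        _ ≤ _ := pow_le_pow_left₀ (by norm_num) (by linarith) c
    have h3 : 1 - (U : ℝ) / p ≤ (1 - 1 / (p : ℝ)) ^ c + ξ / p := by
      have h4 : 1 - (U : ℝ) / p = (1 - (c : ℝ) / p) + ((c : ℝ) - U) / p := by ring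
      have h5 : ((c : ℝ) - U) / p ≤ ξ / p := div_le_div_of_nonneg_right hξ hp0.le
      linarith
    unfold FF
    rw [div_le_iff₀ hq0]
    refine h3.trans ?_
    have h4 : 1 + 2 ^ K * ξ / p ≤ Real.exp (2 ^ K * ξ / p) := by
      have := Real.add_one_le_exp (2 ^ K * ξ / p)
      linarith
    refine le_trans ?_ (mul_le_mul_of_nonneg_right h4 hq0.le)
    have h5 : ξ / p ≤ 2 ^ K * ξ / p * (1 - 1 / (p : ℝ)) ^ c := by
      calc ξ / p = 2 ^ K * ξ / p * (1 / 2 : ℝ) ^ K := by
            rw [one_div, inv_pow]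
            field_simp
        _ ≤ _ := mul_le_mul_of_nonneg_left h2 (by positivity)
    linarith

/-- the coincidences are rare -/
lemma co_prob {Ω : Type} [MeasurableSpace Ω] {P : Measure Ω} {X : ℕ → Ω → ℕ} (hX : Sys P X) (h : Fin k → ℤ) {p : ℕ}
    (hp : p.Prime) : P {ω | Co h (X p ω) p} ≤ ENNReal.ofReal ((k : ℝ) ^ 2 / p) := by
  classical
  have hP := hX.prob
  have hsub : {ω | Co h (X p ω) p} ⊆ (⋃ ij ∈ (univ : Finset (Fin k × Fin k)), {ω | X p ω = rc p (h ij.1 - h ij.2)}) ∪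
      {ω | X p ω < p}ᶜ := by
    intro ω hω
    obtain ⟨i, j, hij⟩ := hω
    by_cases h1 : X p ω < p
    · refine Or.inl ?_
      rw [Set.mem_iUnion₂]
      exact ⟨(i, j), mem_univ _, (rc_iff hp.pos (mem_range.2 h1) _).1 hij⟩
    · exact Or.inr h1
  have h0 : P {ω | X p ω < p}ᶜ = 0 := hX.ae_lt hp
  calc P {ω | Co h (X p ω) p} ≤ P ((⋃ ij ∈ (univ : Finset (Fin k × Fin k)), {ω | X p ω = rc p (h ij.1 - h ij.2)}) ∪
        {ω | X p ω < p}ᶜ) := measure_mono hsub
    _ ≤ P (⋃ ij ∈ (univ : Finset (Fin k × Fin k)), {ω | X p ω = rc p (h ij.1 - h ij.2)}) + P {ω | X p ω < p}ᶜ :=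
        measure_union_le _ _
    _ ≤ (∑ ij ∈ (univ : Finset (Fin k × Fin k)), P {ω | X p ω = rc p (h ij.1 - h ij.2)}) + 0 := by
        rw [h0]
        exact add_le_add (measure_biUnion_finset_le _ _) le_rfl
    _ = ∑ _ij ∈ (univ : Finset (Fin k × Fin k)), ENNReal.ofReal (1 / p) := by
        rw [add_zero]
        refine sum_congr rfl fun ij _ => ?_
        rw [← hX.unif p (rc p (h ij.1 - h ij.2)) hp (mem_range.1 (rc_mem hp.pos _)), ofReal_measureReal]
    _ = ENNReal.ofReal ((k : ℝ) ^ 2 / p) := by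
        rw [sum_const, card_univ, Fintype.card_prod, Fintype.card_fin, nsmul_eq_mul, ← ENNReal.ofReal_natCast,
          ← ENNReal.ofReal_mul (by positivity)]
        congr 1
        push_cast
        ring

open Classical in
/-- the coincidences, weighted by `1 / p` -/
noncomputable def cw (h : Fin k → ℤ) (p b : ℕ) : ℝ := if p.Prime ∧ Co h b p then 1 / (p : ℝ) else 0

lemma cw_nonneg (h : Fin k → ℤ) (p b : ℕ) : 0 ≤ cw h p b := by
  unfold cw
  split_ifs <;> positivity

lemma co_sum {Ω : Type} [MeasurableSpace Ω] {P : Measure Ω} {X : ℕ → Ω → ℕ} (hX : Sys P X) (h : Fin k → ℤ) :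
    ∀ᵐ ω ∂P, Summable fun p : ℕ => cw h p (X p ω) := by
  classical
  have hP := hX.prob
  have hmeas : ∀ p, Measurable fun ω => ENNReal.ofReal (cw h p (X p ω)) := by
    intro p
    exact (Measurable.of_discrete (f := fun b : ℕ => ENNReal.ofReal (cw h p b))).comp (hX.meas p)
  have hint : ∫⁻ ω, ∑' p : ℕ, ENNReal.ofReal (cw h p (X p ω)) ∂P ≠ ⊤ := by
    rw [lintegral_tsum fun p => (hmeas p).aemeasurable]
    have hs : Summable (fun p : ℕ => (k : ℝ) ^ 2 * (1 / ((p : ℝ)) ^ 2)) :=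
      (Real.summable_one_div_nat_pow.2 (by norm_num)).mul_left _
    have hle : ∀ p : ℕ, ∫⁻ ω, ENNReal.ofReal (cw h p (X p ω)) ∂P ≤ ENNReal.ofReal ((k : ℝ) ^ 2 * (1 / ((p : ℝ)) ^ 2)) := by
      intro p
      by_cases hp : p.Prime
      · have hp0 : (0 : ℝ) < p := by exact_mod_cast hp.pos
        have hset : MeasurableSet {ω | Co h (X p ω) p} := by
          have : {ω | Co h (X p ω) p} = X p ⁻¹' {b | Co h b p} := rfl
          rw [this]
          exact hX.meas p MeasurableSet.of_discrete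
        have e : (fun ω => ENNReal.ofReal (cw h p (X p ω))) =
            {ω | Co h (X p ω) p}.indicator fun _ => ENNReal.ofReal (1 / (p : ℝ)) := by
          funext ω
          unfold cw
          by_cases h1 : Co h (X p ω) p
          · rw [if_pos ⟨hp, h1⟩, Set.indicator_of_mem (by exact h1)]
          · rw [if_neg fun h2 => h1 h2.2, Set.indicator_of_notMem (by exact h1), ENNReal.ofReal_zero]
        rw [e, lintegral_indicator_const hset]
        calc ENNReal.ofReal (1 / (p : ℝ)) * P {ω | Co h (X p ω) p} ≤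
              ENNReal.ofReal (1 / (p : ℝ)) * ENNReal.ofReal ((k : ℝ) ^ 2 / p) := mul_le_mul_right (co_prob hX h hp) _
          _ = ENNReal.ofReal ((k : ℝ) ^ 2 * (1 / ((p : ℝ)) ^ 2)) := by
              rw [← ENNReal.ofReal_mul (by positivity)]
              congr 1
              field_simp
      · have e : (fun ω => ENNReal.ofReal (cw h p (X p ω))) = fun _ => 0 := by
          funext ω
          unfold cw
          rw [if_neg fun h2 => hp h2.1, ENNReal.ofReal_zero]
        rw [e, lintegral_zero]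
        exact zero_le
    refine ne_top_of_le_ne_top ?_ (ENNReal.tsum_le_tsum hle)
    rw [← ENNReal.ofReal_tsum_of_nonneg (fun p => by positivity) hs]
    exact ENNReal.ofReal_ne_top
  have h1 := ae_lt_top (Measurable.tsum hmeas) hint
  filter_upwards [h1] with ω hω
  have h2 := ENNReal.summable_toReal hω.ne
  refine h2.congr fun p => ?_
  rw [ENNReal.toReal_ofReal (cw_nonneg _ _ _)]

/-- the tails -/
lemma co_tail {Ω : Type} [MeasurableSpace Ω] {P : Measure Ω} {X : ℕ → Ω → ℕ} (hX : Sys P X) (h : Fin k → ℤ) :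
    ∀ᵐ ω ∂P, ∀ ε : ℝ, 0 < ε → ∃ W0 : ℕ, ∀ s : Finset ℕ, (∀ p ∈ s, W0 < p) → ∑ p ∈ s, cw h p (X p ω) ≤ ε := by
  filter_upwards [co_sum hX h] with ω hω ε hε
  obtain ⟨s0, hs0⟩ := summable_iff_vanishing_norm.1 hω ε hε
  refine ⟨s0.sup id, fun s hs => ?_⟩
  have h1 := hs0 s (by
    rw [disjoint_left]
    intro p hp hp0
    have h2 := hs p hp
    have h3 : p ≤ s0.sup id := le_sup (f := id) hp0
    omega)
  rw [Real.norm_eq_abs] at h1
  exact (le_abs_self _).trans h1.le

end Pool.Agent.L5helper7.SQ
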